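import Pool.Agent.Helper83.RelL.Final
import Pool.Agent.Helper83.RelQ.Final
import Pool.Agent.Helper49.QL.Defs
import Pool.Agent.Helper49.QL.Norm
import Pool.Agent.Helper29.QL.Reindex

/-!
# T-REL: fibre products over `T × A^n` of quadric bundles and of norm bundles of prime degrees
-/

set_option autoImplicit false

namespace Pool.Agent.Helper83.RelL

open NumberField Pool.Agent.Helper4.CB MvPolynomial
open Pool.Agent.Helper65.CB (DominatedOver PotentiallyDense.of_dominated)
open Pool.Agent.Helper69.CB Pool.Agent.Helper83.Rel Pool.Agent.Helper83.RelQ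
open Pool.Agent.Helper49.QU Pool.Agent.Helper49.QL
open AlgebraicGeometry CategoryTheory Pool.Agent.Helper15

/-- the symbols of the mixed family over the new ring -/
noncomputable abbrev amixR {A : Type} [CommRing A] {n r s : ℕ} {N : Fin r → ℕ}
    (B : ∀ i : Fin r, Matrix (Fin (N i)) (Fin (N i)) (MvPolynomial (Fin n) A))
    (a : Fin s → MvPolynomial (Fin n) A) : Fin r ⊕ Fin s → MvPolynomial (Fin (vn N + n)) A :=
  Sum.elim (aQR N B) (fun j => incR n N A (a j))

noncomputable abbrev bmixR {A : Type} [CommRing A] {n r s : ℕ} {N : Fin r → ℕ}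
    (B : ∀ i : Fin r, Matrix (Fin (N i)) (Fin (N i)) (MvPolynomial (Fin n) A))
    (b : Fin s → MvPolynomial (Fin n) A) : Fin r ⊕ Fin s → MvPolynomial (Fin (vn N + n)) A :=
  Sum.elim (bQR N B) (fun j => incR n N A (b j))

theorem map_incR {A A' : Type} [CommRing A] [CommRing A'] {n r : ℕ} {N : Fin r → ℕ}
    (φ : A →+* A') (a : MvPolynomial (Fin n) A) :
    MvPolynomial.map φ (incR n N A a) = incR n N A' (MvPolynomial.map φ a) := by
  show MvPolynomial.map φ (MvPolynomial.rename (tix N) a) =
    MvPolynomial.rename (tix N) (MvPolynomial.map φ a)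
  rw [MvPolynomial.map_rename]

theorem incR_injective {A : Type} [CommRing A] {n r : ℕ} {N : Fin r → ℕ} :
    Function.Injective (incR n N A) :=
  MvPolynomial.rename_injective _ Pool.Agent.Helper8.QU.tix_injective

/-- no common zero passes to the new ring -/
theorem geomNoZero_incR {K : Type} [Field K] {R : Type} [CommRing R] [Algebra K R] {M : ℕ}
    (τ : Fin M → R) {n r : ℕ} {N : Fin r → ℕ} (a : MvPolynomial (Fin n) R)
    (ha : GeomNoZero K τ a) : GeomNoZero K τ (incR n N R a) := by
  intro ψ h
  rw [map_incR] at h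
  exact ha ψ (incR_injective (h.trans (map_zero _).symm))

/-- **T-REL-QL**, abstract form of the base -/
theorem t_relql_of {K : Type} [Field K] [NumberField K] {R : Type} [CommRing R] [IsDomain R]
    [Algebra K R] {M : ℕ} (τ : Fin M → R) (hgen : Algebra.adjoin K (Set.range τ) = ⊤)
    (hcone : ∀ φ : R →ₐ[K] K, ∃ ψ : R →ₐ[K] Polynomial K, ∀ l,
      ψ (τ l) = Polynomial.X * Polynomial.C (φ (τ l)))
    (hdense : ∀ f : R, f ≠ 0 → ∃ φ : R →ₐ[K] K, φ f ≠ 0) (hτ : ∃ l, τ l ≠ 0)
    {n r s : ℕ} {N : Fin r → ℕ}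
    (B : ∀ i : Fin r, Matrix (Fin (N i)) (Fin (N i)) (MvPolynomial (Fin n) R))
    (hB : ∀ i, (B i).IsSymm)
    (hr : ∀ i, ∀ ψ : R →ₐ[K] AlgebraicClosure K,
      (∀ f g : Fin 3 → Fin (N i),
        (((B i).map (MvPolynomial.map (ψ : R →+* AlgebraicClosure K))).submatrix f g).det = 0) →
      ∀ l, ψ (τ l) = 0)
    (l : Fin s → ℕ) [∀ j, NeZero (l j)] (hl : ∀ j, (l j).Prime)
    (a b : Fin s → MvPolynomial (Fin n) R)
    (ha : ∀ j, GeomNoZero K τ (a j)) (hb : ∀ j, GeomNoZero K τ (b j))
    (h : ∀ i, ∀ P : MvPolynomial (Fin n) (FractionRing R), Irreducible P →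
      Minors ((B i).map (MvPolynomial.map (algebraMap R (FractionRing R)))) P → TriDeg 3 P)
    (hab : ∀ j, ∀ P : MvPolynomial (Fin n) (FractionRing R), Irreducible P →
      P ∣ map (algebraMap R (FractionRing R)) (a j * b j) → TriDeg 3 P)
    (hQ : ∀ (v : ∀ i : Fin r, Fin 3 → Fin (N i) → R) (δ : MvPolynomial (Fin n) R),
      δ = ∏ i, D1 (B i) (fun c j => MvPolynomial.C (v i c j)) *
        D2 (B i) (fun c j => MvPolynomial.C (v i c j)) → δ ≠ 0 →
      DominatedOver K (Spec (CommRingCat.of (QLRing B l a b δ)))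
        (Spec (CommRingCat.of (NRing (lmix r l) (amixR B a) (bmixR B b))))
        (Spec.map (CommRingCat.ofHom (algebraMap K (QLRing B l a b δ))))
        (Spec.map (CommRingCat.ofHom (algebraMap K
          (NRing (lmix r l) (amixR B a) (bmixR B b)))))) :
    ∃ δ : MvPolynomial (Fin n) R, δ ≠ 0 ∧ ∀ (X : Scheme.{0}) (s : X ⟶ Spec (CommRingCat.of K)),
      DominatedOver K X (Spec (CommRingCat.of (QLRing B l a b δ))) s
        (Spec.map (CommRingCat.ofHom (algebraMap K (QLRing B l a b δ)))) →
      PotentiallyDense K X s := by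
  classical
  have hchR : CharZero R := charZero_of_injective_algebraMap (algebraMap K R).injective
  have hchL : CharZero (FractionRing R) :=
    charZero_of_injective_algebraMap (IsFractionRing.injective R (FractionRing R))
  -- some minor is nonzero
  have hm : ∀ i, ∃ f g : Fin 3 → Fin (N i), ((B i).submatrix f g).det ≠ 0 := by
    intro i
    obtain ⟨l, hl⟩ := hτ
    obtain ⟨φ, hφ⟩ := hdense _ hl
    by_contra hcon
    push Not at hcon
    let ψ : R →ₐ[K] AlgebraicClosure K := (Algebra.ofId K (AlgebraicClosure K)).comp φ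
    have h1 := hr i ψ (fun f g => by
      have h2 := congrArg (MvPolynomial.map (σ := Fin n) (ψ : R →+* AlgebraicClosure K)) (hcon f g)
      rw [RingHom.map_det, map_zero] at h2
      exact h2) l
    have h3 : ψ (τ l) = algebraMap K (AlgebraicClosure K) (φ (τ l)) := rfl
    rw [h3, map_eq_zero_iff _ (algebraMap K (AlgebraicClosure K)).injective] at h1
    exact hφ h1
  have hNa : ∀ j, NoZero τ ({incR n N R (a j)} : Set (MvPolynomial (Fin (vn N + n)) R)) :=
    fun j => Pool.Agent.Helper60.RelQ.noZero_of_geom τ hgen _ (geomNoZero_incR τ (a j) (ha j))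
  have hNb : ∀ j, NoZero τ ({incR n N R (b j)} : Set (MvPolynomial (Fin (vn N + n)) R)) :=
    fun j => Pool.Agent.Helper60.RelQ.noZero_of_geom τ hgen _ (geomNoZero_incR τ (b j) (hb j))
  have hinjL : Function.Injective (MvPolynomial.map (σ := Fin n)
      (algebraMap R (FractionRing R))) :=
    MvPolynomial.map_injective _ (IsFractionRing.injective R (FractionRing R))
  have ha0 : ∀ j, map (algebraMap R (FractionRing R)) (a j) ≠ 0 := by
    intro j h0
    have h1 : a j = 0 := hinjL (h0.trans (map_zero _).symm)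
    exact (hNa j).ne_zero hτ (by rw [h1, map_zero])
  have hb0 : ∀ j, map (algebraMap R (FractionRing R)) (b j) ≠ 0 := by
    intro j h0
    have h1 : b j = 0 := hinjL (h0.trans (map_zero _).symm)
    exact (hNb j).ne_zero hτ (by rw [h1, map_zero])
  obtain ⟨v, hv⟩ := Classical.axiom_of_choice fun i =>
    Pool.Agent.Helper28.RelQ.exists_constR (K := K) (B i) (hB i) (hm i)
  obtain ⟨δ, hδ⟩ : ∃ δ : MvPolynomial (Fin n) R, δ =
      ∏ i, D1 (B i) (fun c j => MvPolynomial.C (v i c j)) *
      D2 (B i) (fun c j => MvPolynomial.C (v i c j)) := ⟨_, rfl⟩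
  have hδ0 : δ ≠ 0 := by
    rw [hδ]
    exact Finset.prod_ne_zero_iff.2 fun i _ => hv i
  refine ⟨δ, hδ0, fun X s hX => PotentiallyDense.of_dominated hX
    (PotentiallyDense.of_dominated (hQ v δ hδ hδ0) ?_)⟩
  refine Pool.Agent.Helper29.QL.nring_reindex finSumFinEquiv.symm (lmix r l) (amixR B a) (bmixR B b) ?_
  -- the mixed family
  have hprime : ∀ i, (lmix r l i).Prime := by
    rintro (i | j)
    · exact Nat.prime_two
    · exact hl j
  have hNza : ∀ i, NoZero τ ({amixR B a i} : Set (MvPolynomial (Fin (vn N + n)) R)) := by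
    rintro (i | j)
    · exact Pool.Agent.Helper60.RelQ.noZero_of_geom τ hgen _
        (Pool.Agent.Helper17.RelQ.geomNoZero_sym τ B hB i (hr i)).1
    · exact hNa j
  have hNzb : ∀ i, NoZero τ ({bmixR B b i} : Set (MvPolynomial (Fin (vn N + n)) R)) := by
    rintro (i | j)
    · exact Pool.Agent.Helper60.RelQ.noZero_of_geom τ hgen _
        (Pool.Agent.Helper17.RelQ.geomNoZero_sym τ B hB i (hr i)).2
    · exact hNb j
  have hfac : ∀ i, ∀ P : MvPolynomial (Fin (vn N + n)) (FractionRing R), Irreducible P →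
      P ∣ map (algebraMap R (FractionRing R)) (amixR B a i * bmixR B b i) → TriDeg 3 P := by
    rintro (i | j) P hP hd
    · have h1 := Pool.Agent.Helper49.RelQ.map_aQR_bQR (algebraMap R (FractionRing R)) B i
      have h2 := Pool.Agent.Helper49.RelQ.aQR_eq
        (fun i => (B i).map (MvPolynomial.map (algebraMap R (FractionRing R)))) i
      change P ∣ map (algebraMap R (FractionRing R)) (aQR N B i * bQR N B i) at hd
      rw [map_mul, h1.1, h1.2, h2.1, h2.2] at hd
      refine Pool.Agent.Helper8.RelQ.factor_tri 3 (by norm_num) _ (fun i => (hB i).map _) i ?_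
        (h i) P hP hd
      obtain ⟨f, g, hfg⟩ := hm i
      refine ⟨f, g, fun h0 => hfg ?_⟩
      have h3 := RingHom.map_det (MvPolynomial.map (σ := Fin n) (algebraMap R (FractionRing R)))
        ((B i).submatrix f g)
      have h4 : MvPolynomial.map (algebraMap R (FractionRing R)) ((B i).submatrix f g).det = 0 := by
        rw [h3]
        exact h0
      exact hinjL (by rw [h4, map_zero])
    · change P ∣ map (algebraMap R (FractionRing R)) (incR n N R (a j) * incR n N R (b j)) at hd
      rw [map_mul, map_incR, map_incR] at hd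
      have h5 := factor_norm (k := FractionRing R) (N := N) 3 (l j) False
        (map (algebraMap R (FractionRing R)) (a j)) (map (algebraMap R (FractionRing R)) (b j))
        (ha0 j) (hb0 j) (fun P hP hd => Or.inl (hab j P hP (by rwa [map_mul]))) P hP hd
      exact h5.resolve_right (fun h => h.1)
  exact t_rell_abs τ hgen hcone hdense hτ
    (fun i => lmix r l (finSumFinEquiv.symm i)) (fun i => hprime _)
    (fun i => amixR B a (finSumFinEquiv.symm i)) (fun i => bmixR B b (finSumFinEquiv.symm i))
    (fun i => hNza _) (fun i => hNzb _) (fun i => hfac _)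

end Pool.Agent.Helper83.RelL
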