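import Pool.Agent.Helper83.RelL.Defs
import Pool.Agent.Helper17.Rel.Scale
import Pool.Agent.Helper56.CL.TriF

/-!
# T-REL for several primes: the leaf lemmas of helper17, helper49, helper43, helper34 for `Bad Λ J`
-/

set_option autoImplicit false

namespace Pool.Agent.Helper83.RelL

open NumberField Pool.Agent.Helper4.CB Pool.Agent.Helper69.CB Pool.Agent.Helper83.Rel MvPolynomial


/-- **R1.** scaling by the class group: at all bad places the coordinates are integral and one of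
them is a unit. -/
theorem exists_scaleL (K : Type) [Field K] [NumberField K] {Λ : Finset ℕ} (hΛ : ∀ l ∈ Λ, 2 ≤ l)
    (N : ℕ) : ∃ J0 : ℕ, ∀ J, J0 ≤ J →
    ∀ t : Fin N → K, t ≠ 0 → ∃ l : K, l ≠ 0 ∧ ∀ p : Pl K, Pool.Agent.Helper65.CL.Bad Λ J p →
      (∀ i, vl p (l * t i) ≤ 1) ∧ ∃ i, vl p (l * t i) = 1 := by
  classical
  choose I hI using ClassGroup.mk0_surjective (R := 𝓞 K)
  have hx : ∀ c, ∃ x ∈ (I c : Ideal (𝓞 K)), x ≠ 0 := fun c =>
    Submodule.exists_mem_ne_zero_of_ne_bot (nonZeroDivisors.ne_zero (I c).2)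
  choose x hx hx0 using hx
  obtain ⟨J0, hJ0⟩ := Pool.Agent.Helper56.CL.start K hΛ
    (Finset.univ.image fun c => algebraMap (𝓞 K) K (x c)) 0
  refine ⟨J0, fun J hJ t ht => ?_⟩
  obtain ⟨b, hb⟩ := IsLocalization.exist_integer_multiples_of_finite (nonZeroDivisors (𝓞 K)) t
  choose s hs using hb
  have hb0 : algebraMap (𝓞 K) K b ≠ 0 := by
    have := nonZeroDivisors.ne_zero b.2
    rwa [Ne, FaithfulSMul.algebraMap_eq_zero_iff]
  have hs' : ∀ i, algebraMap (𝓞 K) K (s i) = algebraMap (𝓞 K) K b * t i := fun i => by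
    rw [hs i, Algebra.smul_def]
  obtain ⟨i0, hi0⟩ := Function.ne_iff.1 ht
  have hsi0 : s i0 ≠ 0 := by
    intro h
    have := hs' i0
    rw [h, map_zero] at this
    exact mul_ne_zero hb0 hi0 this.symm
  obtain ⟨c, y, z, w, hy, hz, hw, hp⟩ := Pool.Agent.Helper17.Rel.class_step s I hI ⟨i0, hsi0⟩
  have hyK : algebraMap (𝓞 K) K y ≠ 0 := by rwa [Ne, FaithfulSMul.algebraMap_eq_zero_iff]
  have hzK : algebraMap (𝓞 K) K z ≠ 0 := by rwa [Ne, FaithfulSMul.algebraMap_eq_zero_iff]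
  have hwK : ∀ i, algebraMap (𝓞 K) K y / algebraMap (𝓞 K) K z * algebraMap (𝓞 K) K b * t i =
      algebraMap (𝓞 K) K (w i) := by
    intro i
    have h1 : algebraMap (𝓞 K) K y * algebraMap (𝓞 K) K (s i) =
        algebraMap (𝓞 K) K z * algebraMap (𝓞 K) K (w i) := by
      rw [← map_mul, hw i, map_mul]
    rw [mul_assoc, ← hs', div_mul_eq_mul_div, h1, mul_div_cancel_left₀ _ hzK]
  refine ⟨algebraMap (𝓞 K) K y / algebraMap (𝓞 K) K z * algebraMap (𝓞 K) K b,
    mul_ne_zero (div_ne_zero hyK hzK) hb0, fun p hpb => ?_⟩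
  have h1 : ∀ i, vl p (algebraMap (𝓞 K) K y / algebraMap (𝓞 K) K z * algebraMap (𝓞 K) K b * t i)
      ≤ 1 := by
    intro i
    rw [hwK]
    exact p.valuation_le_one (w i)
  refine ⟨h1, ?_⟩
  by_contra hcon
  push Not at hcon
  have h2 : ∀ i, w i ∈ p.asIdeal := by
    intro i
    have h3 := lt_of_le_of_ne (h1 i) (hcon i)
    rw [hwK] at h3
    exact (p.valuation_lt_one_iff_mem (w i)).1 h3
  have h8 := (hJ0 J hJ p hpb).2 (algebraMap (𝓞 K) K (x c))
    (Finset.mem_image_of_mem _ (Finset.mem_univ c))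
    (by
      rw [Ne, FaithfulSMul.algebraMap_eq_zero_iff]
      exact hx0 c)
  have h9 := (p.valuation_lt_one_iff_mem (K := K) (x c)).2 (hp p.asIdeal h2 (hx c))
  exact absurd h8 (ne_of_lt h9)


/-- **R2.** dense normalised points of a cone, over the scaling lemma R1 -/
theorem exists_nrmL {K : Type} [Field K] [NumberField K] {Λ : Finset ℕ} (hΛ : ∀ l ∈ Λ, 2 ≤ l)
    {R : Type} [CommRing R] [IsDomain R]
    [Algebra K R] {N : ℕ}
    (hR1 : ∃ J0 : ℕ, ∀ J, J0 ≤ J →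
      ∀ t : Fin N → K, t ≠ 0 → ∃ l : K, l ≠ 0 ∧ ∀ p : Pl K, Pool.Agent.Helper65.CL.Bad Λ J p →
        (∀ i, vl p (l * t i) ≤ 1) ∧ ∃ i, vl p (l * t i) = 1)
    (τ : Fin N → R) (hgen : Algebra.adjoin K (Set.range τ) = ⊤)
    (hcone : ∀ φ : R →ₐ[K] K, ∃ ψ : R →ₐ[K] Polynomial K, ∀ l, ψ (τ l) = Polynomial.X * Polynomial.C (φ (τ l)))
    (hdense : ∀ f : R, f ≠ 0 → ∃ φ : R →ₐ[K] K, φ f ≠ 0) (hτ : ∃ l, τ l ≠ 0) :
    ∃ J0 : ℕ, ∀ J, J0 ≤ J → ∀ f : R, f ≠ 0 → ∃ φ : R →ₐ[K] K, NrmL Λ J τ φ ∧ φ f ≠ 0 := by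
  classical
  obtain ⟨J1, hJ1⟩ := hR1
  obtain ⟨J2, hJ2⟩ := Pool.Agent.Helper56.CL.start K hΛ {(2 : K)} 0
  refine ⟨max J1 J2, fun J hJ f hf => ?_⟩
  obtain ⟨l0, hl0⟩ := hτ
  obtain ⟨φ, hφ⟩ := hdense (f * τ l0) (mul_ne_zero hf hl0)
  rw [map_mul] at hφ
  have hf0 : φ f ≠ 0 := left_ne_zero_of_mul hφ
  have ht0 : (fun l => φ (τ l)) ≠ 0 := by
    intro h
    exact right_ne_zero_of_mul hφ (congrFun h l0)
  obtain ⟨lam, hlam, hp⟩ := hJ1 J ((le_max_left _ _).trans hJ) (fun l => φ (τ l)) ht0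
  obtain ⟨ψ, hψ⟩ := hcone φ
  -- `ψ` at `1` is `φ`
  have hψ1 : (Polynomial.aeval (1 : K)).comp ψ = φ := by
    refine AlgHom.ext_of_adjoin_eq_top hgen ?_
    rintro _ ⟨l, rfl⟩
    simp [hψ l]
  have hψf : ψ f ≠ 0 := by
    intro h
    apply hf0
    rw [← hψ1, AlgHom.comp_apply, h, map_zero]
  -- a good multiple of `lam`
  obtain ⟨k, hk⟩ : ∃ k : ℕ, (ψ f).eval (lam * 2 ^ k) ≠ 0 := by
    by_contra hcon
    push Not at hcon
    apply hψf
    refine Polynomial.eq_zero_of_infinite_isRoot _ ?_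
    have hinj : Function.Injective (fun k : ℕ => lam * (2 : K) ^ k) := by
      intro a b hab
      have h1 : (2 : K) ^ a = 2 ^ b := mul_left_cancel₀ hlam hab
      have h2 : ((2 ^ a : ℕ) : K) = ((2 ^ b : ℕ) : K) := by push_cast; exact h1
      exact Nat.pow_right_injective le_rfl (Nat.cast_injective h2)
    refine (Set.infinite_range_of_injective hinj).mono ?_
    rintro _ ⟨k, rfl⟩
    exact hcon k
  refine ⟨(Polynomial.aeval (lam * 2 ^ k)).comp ψ, ?_, ?_⟩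
  · intro p hpB
    have h2 : vl p (2 : K) = 1 :=
      (hJ2 J ((le_max_right _ _).trans hJ) p hpB).2 2 (Finset.mem_singleton_self _) two_ne_zero
    have hval : ∀ l, vl p (((Polynomial.aeval (lam * 2 ^ k)).comp ψ) (τ l)) =
        vl p (lam * φ (τ l)) := by
      intro l
      rw [AlgHom.comp_apply, hψ l, map_mul, Polynomial.aeval_X, Polynomial.aeval_C,
        Algebra.algebraMap_self_apply, mul_assoc, mul_comm ((2 : K) ^ k), ← mul_assoc, map_mul,
        map_pow, h2, one_pow, mul_one]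
    obtain ⟨h3, i, h4⟩ := hp p hpB
    exact ⟨fun l => (hval l).trans_le (h3 l), i, (hval i).trans h4⟩
  · rw [AlgHom.comp_apply, Polynomial.coe_aeval_eq_eval]
    exact hk


/-- **R3.** for every element `c` of the ring, `J` large: integral at all points with integral
coordinates (coefficients of one polynomial expression of `c` in the `τ l`) -/
theorem int_of_genL {K : Type} [Field K] [NumberField K] {Λ : Finset ℕ} (hΛ : ∀ l ∈ Λ, 2 ≤ l)
    {R : Type} [CommRing R]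
    [Algebra K R] {N : ℕ} (τ : Fin N → R) (hgen : Algebra.adjoin K (Set.range τ) = ⊤) (c : R) :
    ∃ J0 : ℕ, ∀ J, J0 ≤ J → ∀ φ : R →ₐ[K] K, ∀ p : Pl K, Pool.Agent.Helper65.CL.Bad Λ J p → (∀ l, vl p (φ (τ l)) ≤ 1) →
      vl p (φ c) ≤ 1 := by
  classical
  have hc : c ∈ Algebra.adjoin K (Set.range τ) := by rw [hgen]; exact Algebra.mem_top
  rw [Algebra.adjoin_range_eq_range_aeval] at hc
  obtain ⟨P, rfl⟩ := (AlgHom.mem_range _).1 hc
  obtain ⟨J0, hJ0⟩ := Pool.Agent.Helper56.CL.start K hΛ (P.support.image fun m => P.coeff m) 0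
  refine ⟨J0, fun J hJ φ p hp hl => ?_⟩
  have h1 : φ (MvPolynomial.aeval τ P) =
      ∑ m ∈ P.support, P.coeff m * ∏ l, φ (τ l) ^ m l := by
    rw [MvPolynomial.aeval_def, MvPolynomial.eval₂_eq', map_sum]
    refine Finset.sum_congr rfl fun m _ => ?_
    rw [map_mul, map_prod, AlgHom.commutes]
    simp only [map_pow]
    rfl
  rw [h1]
  refine Valuation.map_sum_le _ fun m hm => ?_
  rw [map_mul, map_prod]
  have h2 : vl p (P.coeff m) = 1 :=
    (hJ0 J hJ p hp).2 _ (Finset.mem_image_of_mem _ hm) (MvPolynomial.mem_support_iff.1 hm)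
  rw [h2, one_mul]
  refine Finset.prod_le_one' fun l _ => ?_
  rw [map_pow]
  exact pow_le_one' (hl l) _

/-- R3 for a finite set -/
theorem int_of_gen_finsetL {K : Type} [Field K] [NumberField K] {Λ : Finset ℕ} (hΛ : ∀ l ∈ Λ, 2 ≤ l)
    {R : Type} [CommRing R]
    [Algebra K R] {N : ℕ} (τ : Fin N → R) (hgen : Algebra.adjoin K (Set.range τ) = ⊤)
    (C : Set R) (hC : C.Finite) :
    ∃ J0 : ℕ, ∀ J, J0 ≤ J → ∀ φ : R →ₐ[K] K, ∀ p : Pl K, Pool.Agent.Helper65.CL.Bad Λ J p → (∀ l, vl p (φ (τ l)) ≤ 1) →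
      ∀ c ∈ C, vl p (φ c) ≤ 1 := by
  classical
  choose J0 hJ0 using fun c : R => int_of_genL hΛ τ hgen c
  refine ⟨∑ c ∈ hC.toFinset, J0 c, fun J hJ φ p hp hl c hc => ?_⟩
  refine hJ0 c J ?_ φ p hp hl
  exact (Finset.single_le_sum (f := J0) (fun _ _ => Nat.zero_le _)
    (hC.mem_toFinset.2 hc)).trans hJ

/-- **R4.** no common zero on `T`, finitely many polynomials: unit content at all bad places and all
normalised points, `J` large (R3 for the coefficients and for the multipliers in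
`τ l ^ s = sum of multiples of coefficients`) -/
theorem unitL_of_noZero {K : Type} [Field K] [NumberField K] {Λ : Finset ℕ} (hΛ : ∀ l ∈ Λ, 2 ≤ l)
    {R : Type} [CommRing R]
    [Algebra K R] {N : ℕ} (τ : Fin N → R) (hgen : Algebra.adjoin K (Set.range τ) = ⊤) {n : ℕ}
    (T : Finset (MvPolynomial (Fin n) R)) (hT : NoZero τ (T : Set (MvPolynomial (Fin n) R))) :
    ∃ J0 : ℕ, ∀ J, J0 ≤ J → UnitL Λ J (NrmL (K := K) Λ J τ) (Coefs (T : Set (MvPolynomial (Fin n) R))) := by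
  classical
  set U : Set R := Coefs (T : Set (MvPolynomial (Fin n) R)) with hU
  -- the set of coefficients is finite
  have hfin : U.Finite := by
    have h1 : U ⊆ insert (0 : R) (((T.biUnion fun f => f.support.image fun m => f.coeff m) :
        Finset R) : Set R) := by
      rintro c ⟨f, hf, m, rfl⟩
      by_cases h0 : f.coeff m = 0
      · exact Or.inl h0
      · refine Or.inr ?_
        rw [Finset.mem_coe, Finset.mem_biUnion]
        exact ⟨f, hf, Finset.mem_image_of_mem _ (MvPolynomial.mem_support_iff.2 h0)⟩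
    exact ((Finset.finite_toSet _).insert _).subset h1
  -- the multipliers
  have hmul : ∀ l, ∃ (s : ℕ) (r : R →₀ R), (r.support : Set R) ⊆ U ∧
      τ l ^ s = r.sum fun c a => a * c := by
    intro l
    obtain ⟨s, hs⟩ := hT l
    obtain ⟨r, hr1, hr2⟩ := (Submodule.mem_span_set (R := R) (s := U)).1 hs
    refine ⟨s, r, hr1, ?_⟩
    rw [← hr2]
    rfl
  choose s r hr1 hr2 using hmul
  have hfin2 : (⋃ l, (fun c => r l c) '' U).Finite := Set.finite_iUnion fun l => hfin.image _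
  obtain ⟨J1, hJ1⟩ := int_of_gen_finsetL hΛ τ hgen U hfin
  obtain ⟨J2, hJ2⟩ := int_of_gen_finsetL hΛ τ hgen _ hfin2
  refine ⟨max J1 J2, fun J hJ φ hφ p hp => ?_⟩
  obtain ⟨hl, l, hl1⟩ := hφ p hp
  have h1 : ∀ c ∈ U, vl p (φ c) ≤ 1 := hJ1 J (le_of_max_le_left hJ) φ p hp hl
  have h2 := hJ2 J (le_of_max_le_right hJ) φ p hp hl
  refine ⟨h1, ?_⟩
  by_contra hcon
  push Not at hcon
  have h3 : ∀ c ∈ U, vl p (φ c) < 1 := fun c hc => lt_of_le_of_ne (h1 c hc) (hcon c hc)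
  have h4 : vl p (φ (τ l ^ s l)) < 1 := by
    rw [hr2 l, Finsupp.sum, map_sum]
    refine Valuation.map_sum_lt _ one_ne_zero fun c hc => ?_
    rw [map_mul, map_mul]
    have h5 : vl p (φ (r l c)) ≤ 1 :=
      h2 _ (Set.mem_iUnion.2 ⟨l, Set.mem_image_of_mem _ (hr1 l hc)⟩)
    exact lt_of_le_of_lt (mul_le_of_le_one_left' h5) (h3 c (hr1 l hc))
  rw [map_pow, map_pow, hl1, one_pow] at h4
  exact lt_irrefl _ h4


/-- **G2.** scaling to unit content at all bad places -/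
theorem exists_ucL_of (K : Type) [Field K] [NumberField K] {Λ : Finset ℕ}
    (hR1 : ∀ N : ℕ, ∃ J0 : ℕ, ∀ J, J0 ≤ J → ∀ t : Fin N → K, t ≠ 0 → ∃ l : K, l ≠ 0 ∧
      ∀ p : Pl K, Pool.Agent.Helper65.CL.Bad Λ J p → (∀ i, vl p (l * t i) ≤ 1) ∧ ∃ i, vl p (l * t i) = 1) (n N : ℕ) :
    ∃ J0 : ℕ, ∀ J, J0 ≤ J → ∀ f : MvPolynomial (Fin n) K, f ≠ 0 → f.support.card ≤ N →
      ∃ l : K, l ≠ 0 ∧ ∀ p : Pl K, Pool.Agent.Helper65.CL.Bad Λ J p → UC p (C l * f) := by
  classical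
  choose j hj using hR1
  refine ⟨∑ M ∈ Finset.range (N + 1), j M, fun J hJ f hf hc => ?_⟩
  have hM : j f.support.card ≤ J := by
    refine le_trans ?_ hJ
    exact Finset.single_le_sum (f := j) (fun _ _ => Nat.zero_le _)
      (Finset.mem_range.mpr (Nat.lt_succ_of_le hc))
  let e := f.support.equivFin
  let t : Fin f.support.card → K := fun i => f.coeff (e.symm i : Fin n →₀ ℕ)
  have ht : t ≠ 0 := by
    intro h0
    apply hf
    ext m
    rw [coeff_zero]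
    by_contra hm
    have hms : m ∈ f.support := mem_support_iff.mpr hm
    have h1 := congrFun h0 (e ⟨m, hms⟩)
    simp only [t, Equiv.symm_apply_apply, Pi.zero_apply] at h1
    exact hm h1
  obtain ⟨l, hl, h⟩ := hj f.support.card J hM t ht
  refine ⟨l, hl, fun p hp => ?_⟩
  obtain ⟨h1, i, h2⟩ := h p hp
  constructor
  · intro m
    rw [coeff_C_mul]
    by_cases hm : m ∈ f.support
    · have h3 := h1 (e ⟨m, hm⟩)
      simp only [t, Equiv.symm_apply_apply] at h3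
      exact h3
    · rw [notMem_support_iff.mp hm, mul_zero, map_zero]
      exact zero_le_one
  · exact ⟨(e.symm i : Fin n →₀ ℕ), by rw [coeff_C_mul]; exact h2⟩

/-- **G2** with R1 of helper17 inserted -/
theorem exists_ucL (K : Type) [Field K] [NumberField K] {Λ : Finset ℕ} (hΛ : ∀ l ∈ Λ, 2 ≤ l)
    (n N : ℕ) :
    ∃ J0 : ℕ, ∀ J, J0 ≤ J → ∀ f : MvPolynomial (Fin n) K, f ≠ 0 → f.support.card ≤ N →
      ∃ l : K, l ≠ 0 ∧ ∀ p : Pl K, Pool.Agent.Helper65.CL.Bad Λ J p → UC p (C l * f) :=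
  exists_ucL_of K (fun N => exists_scaleL K hΛ N) n N

end Pool.Agent.Helper83.RelL
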