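import Pool.Agent.Helper83.RelL.Defs
import Pool.Agent.Helper83.Rel.Ind
import Pool.Agent.Helper69.CB.TriE

/-!
# T-REL, version 2: the induction over `K` for polynomials of type F with unit content
-/

set_option autoImplicit false

namespace Pool.Agent.Helper83.RelL

open NumberField Pool.Agent.Helper4.CB MvPolynomial Pool.Agent.Helper49.CB
open Pool.Agent.Helper69.CB Pool.Agent.Helper83.Rel

/-- **E2.** -/
theorem triClaim2L {K : Type} [Field K] [NumberField K] {Λ : Finset ℕ} {J dm A Dg : ℕ}
    (hD : Pool.Agent.Helper65.CL.StepD K Λ J dm A Dg) (n : ℕ) :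
    ∀ (ι κ : Type) [Fintype ι] [Fintype κ] (F : ι → MvPolynomial (Fin n) K)
      (T : κ → Finset (MvPolynomial (Fin n) K)) (H : MvPolynomial (Fin n) K),
      Fintype.card ι + Fintype.card κ ≤ A →
      (∀ i, TF dm n (F i)) →
      (∀ k, ∀ q, Irreducible q → ∃ f ∈ T k, ¬ q ∣ f) →
      (∀ i j, (F i).degreeOf j ≤ Dg) → (∀ k, ∀ f ∈ T k, ∀ j, f.degreeOf j ≤ Dg) →
      (∀ p : Pl K, Pool.Agent.Helper65.CL.Bad Λ J p → ∀ i, UC p (F i)) →
      (∀ p : Pl K, Pool.Agent.Helper65.CL.Bad Λ J p → ∀ k, UCT p (T k)) →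
      H ≠ 0 →
      ∃ t : Fin n → K, MvPolynomial.eval t H ≠ 0 ∧ ∀ p : Pl K, Pool.Agent.Helper65.CL.Bad Λ J p → (∀ j, vl p (t j) ≤ 1) ∧
        (∀ i, vl p (MvPolynomial.eval t (F i)) = 1) ∧
        ∀ k, ∃ f ∈ T k, vl p (MvPolynomial.eval t f) = 1 := by
  classical
  induction n with
  | zero =>
    intro ι κ _ _ F T H _ hF hT _ _ _ hcT hH
    refine ⟨fun i => i.elim0, ?_, ?_⟩
    · rw [eq_C_of_isEmpty H] at hH ⊢
      rw [eval_C]
      intro h0
      apply hH
      rw [h0, C_0]
    · intro p hp
      refine ⟨fun j => j.elim0, fun i => absurd (hF i) (by simp [TF]), fun k => ?_⟩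
      obtain ⟨_, f, hf, m, hm⟩ := hcT p hp k
      refine ⟨f, hf, ?_⟩
      have h1 : f = C (coeff 0 f) := eq_C_of_isEmpty f
      have hm0 : m = 0 := Subsingleton.elim _ _
      rw [hm0] at hm
      rw [h1, eval_C]
      exact hm
  | succ n ih =>
    intro ι κ _ _ F T H hA hF hT hdF hdT hcF hcT hH
    set e := finSuccEquiv K n with he
    let T1 : κ → Finset (Polynomial (MvPolynomial (Fin n) K)) := fun k => (T k).image e
    have hcop : ∀ k, Cop (T1 k) := by
      intro k q hq
      have h1 : Irreducible (e.symm q) := (MulEquiv.irreducible_iff e.symm).2 hq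
      obtain ⟨f, hf, hfq⟩ := hT k _ h1
      refine ⟨e f, Finset.mem_image_of_mem _ hf, fun hd => hfq ?_⟩
      have h2 := map_dvd e.symm hd
      rwa [AlgEquiv.symm_apply_apply] at h2
    choose hh ρ hρ0 hρ using fun k => cop_bezout (T1 k) (hcop k)
    have heH : e H ≠ 0 := by
      intro h0
      apply hH
      have := congrArg e.symm h0
      rwa [AlgEquiv.symm_apply_apply, map_zero] at this
    have hmem : ∀ (f : MvPolynomial (Fin (n + 1)) K) (c : MvPolynomial (Fin n) K),
        c ∈ (e f).coeffs → ∃ i, c = (e f).coeff i := by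
      intro f c hc
      rw [Polynomial.mem_coeffs_iff] at hc
      obtain ⟨i, _, hi⟩ := hc
      exact ⟨i, hi⟩
    have hmem1 : ∀ (k : κ) (c : MvPolynomial (Fin n) K),
        c ∈ (T1 k).biUnion Polynomial.coeffs → ∃ f ∈ T k, ∃ i, c = (e f).coeff i := by
      intro k c hc
      rw [Finset.mem_biUnion] at hc
      obtain ⟨g, hg, hc⟩ := hc
      obtain ⟨f, hf, rfl⟩ := Finset.mem_image.1 hg
      exact ⟨f, hf, hmem f c hc⟩
    have hcc : ∀ (f : MvPolynomial (Fin (n + 1)) K) (i : ℕ) (m : Fin n →₀ ℕ),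
        coeff m ((e f).coeff i) = coeff (m.cons i) f := fun f i m => finSuccEquiv_coeff_coeff m f i
    have hcc' : ∀ (f : MvPolynomial (Fin (n + 1)) K) (m : Fin (n + 1) →₀ ℕ),
        coeff m f = coeff m.tail ((e f).coeff (m 0)) := by
      intro f m
      rw [hcc, Finsupp.cons_tail]
    have hne : ∀ (p : Pl K) (x : K), vl p x = 1 → x ≠ 0 := by
      rintro p x hx rfl
      rw [map_zero] at hx
      exact zero_ne_one hx
    have hnz : ∀ (f : MvPolynomial (Fin (n + 1)) K) (m : Fin (n + 1) →₀ ℕ), coeff m f ≠ 0 →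
        (e f).coeff (m 0) ≠ 0 := by
      intro f m hm h0
      rw [hcc', h0, coeff_zero] at hm
      exact hm rfl
    -- the two kinds of `F i`
    let Pa : ι → Prop := fun i => (e (F i)).natDegree = 0 ∧ TF dm n ((e (F i)).coeff 0)
    have hPb : ∀ i, ¬ Pa i → (e (F i)).natDegree ≤ dm ∧ Cop (e (F i)).coeffs := by
      intro i hi
      rcases hF i with h | h
      · exact h
      · exact absurd h hi
    obtain ⟨t', htH, htp⟩ : ∃ t' : Fin n → K,
        eval t' ((e H).leadingCoeff * ∏ k, ρ k) ≠ 0 ∧ ∀ p : Pl K, Pool.Agent.Helper65.CL.Bad Λ J p →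
        (∀ j, vl p (t' j) ≤ 1) ∧
        (∀ i : {i : ι // Pa i}, vl p (eval t' ((e (F i.1)).coeff 0)) = 1) ∧
        ∀ k : {i : ι // ¬ Pa i} ⊕ κ, ∃ f ∈ (Sum.elim
          (fun i : {i : ι // ¬ Pa i} => (e (F i.1)).coeffs)
          (fun k => (T1 k).biUnion Polynomial.coeffs) k), vl p (eval t' f) = 1 := by
      refine ih {i : ι // Pa i}
        ({i : ι // ¬ Pa i} ⊕ κ) (fun i => (e (F i.1)).coeff 0)
        (Sum.elim (fun i => (e (F i.1)).coeffs) (fun k => (T1 k).biUnion Polynomial.coeffs))
        ((e H).leadingCoeff * ∏ k, ρ k) ?_ ?_ ?_ ?_ ?_ ?_ ?_ ?_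
      · -- cardinalities
        rw [Fintype.card_sum, ← add_assoc, ← Fintype.card_sum,
          Fintype.card_congr (Equiv.sumCompl Pa)]
        exact hA
      · exact fun i => i.2.2
      · -- tuples
        rintro (i | k) q hq
        · exact (hPb i.1 i.2).2 q hq
        · obtain ⟨f, hf, c, hc, hcq⟩ := cop_coeffs' (hcop k) q hq
          exact ⟨c, Finset.mem_biUnion.2 ⟨f, hf, hc⟩, hcq⟩
      · intro i j
        exact (degreeOf_coeff_finSuccEquiv _ j 0).trans (hdF i.1 j.succ)
      · rintro (i | k) f hf j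
        · obtain ⟨m, rfl⟩ := hmem _ _ hf
          exact (degreeOf_coeff_finSuccEquiv _ j m).trans (hdF i.1 j.succ)
        · obtain ⟨g, hg, m, rfl⟩ := hmem1 _ _ hf
          exact (degreeOf_coeff_finSuccEquiv _ j m).trans (hdT k g hg j.succ)
      · intro p hp i
        obtain ⟨h1, m, hm⟩ := hcF p hp i.1
        refine ⟨fun m => by rw [hcc]; exact h1 _, m.tail, ?_⟩
        have h2 : m 0 = 0 := by
          by_contra h3
          apply hnz _ _ (hne p _ hm)
          exact Polynomial.coeff_eq_zero_of_natDegree_lt (by rw [i.2.1]; omega)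
        rw [hcc', h2] at hm
        exact hm
      · rintro p hp (i | k)
        · obtain ⟨h1, m, hm⟩ := hcF p hp i.1
          constructor
          · intro f hf m
            obtain ⟨l, rfl⟩ := hmem _ _ hf
            rw [hcc]
            exact h1 _
          · refine ⟨_, Polynomial.coeff_mem_coeffs (hnz _ _ (hne p _ hm)), m.tail, ?_⟩
            rw [← hcc']
            exact hm
        · obtain ⟨h1, f, hf, m, hm⟩ := hcT p hp k
          constructor
          · intro g hg m
            obtain ⟨f', hf', l, rfl⟩ := hmem1 _ _ hg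
            rw [hcc]
            exact h1 f' hf' _
          · refine ⟨_, Finset.mem_biUnion.2 ⟨e f, Finset.mem_image_of_mem _ hf,
              Polynomial.coeff_mem_coeffs (hnz _ _ (hne p _ hm))⟩, m.tail, ?_⟩
            rw [← hcc']
            exact hm
      · exact mul_ne_zero (Polynomial.leadingCoeff_ne_zero.2 heH)
          (Finset.prod_ne_zero_iff.2 fun k _ => hρ0 k)
    -- the last variable
    rw [map_mul, map_prod] at htH
    have htH1 : eval t' (e H).leadingCoeff ≠ 0 := left_ne_zero_of_mul htH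
    have htρ : ∀ k, eval t' (ρ k) ≠ 0 := fun k =>
      Finset.prod_ne_zero_iff.1 (right_ne_zero_of_mul htH) k (Finset.mem_univ k)
    let φ : MvPolynomial (Fin (n + 1)) K → Polynomial K := fun f => (e f).map (eval t')
    have hφH : φ H ≠ 0 := by
      intro h0
      apply htH1
      have h1 := congrArg (fun q => Polynomial.coeff q (e H).natDegree) h0
      simp only [φ, Polynomial.coeff_map, Polynomial.coeff_zero] at h1
      exact h1
    have hint : ∀ p : Pl K, Pool.Agent.Helper65.CL.Bad Λ J p → ∀ f : MvPolynomial (Fin (n + 1)) K,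
        (∀ m, vl p (coeff m f) ≤ 1) → ∀ j, vl p ((φ f).coeff j) ≤ 1 := by
      intro p hp f hf j
      rw [Polynomial.coeff_map]
      refine vl_eval_le (vl p) _ (fun m => ?_) (htp p hp).1
      rw [hcc]
      exact hf _
    obtain ⟨τ, hτ, hτp⟩ : ∃ τ : K, τ ∉ (φ H).roots.toFinset ∧ ∀ p : Pl K, Pool.Agent.Helper65.CL.Bad Λ J p →
        vl p τ ≤ 1 ∧ (∀ i : {i : ι // ¬ Pa i},
          vl p ((φ (F i.1)).eval τ) = 1) ∧
        ∀ k, ∃ f ∈ (T k).image φ, vl p (f.eval τ) = 1 := by
      refine hD {i : ι // ¬ Pa i} κ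
        (fun i => φ (F i.1)) (fun k => (T k).image φ) ?_ ?_ ?_ ?_ ?_ ?_ (φ H).roots.toFinset
      · refine le_trans (Nat.add_le_add_right (Fintype.card_subtype_le _) _) hA
      · intro i
        have h1 : (φ (F i.1)).natDegree ≤ (e (F i.1)).natDegree := Polynomial.natDegree_map_le
        have h2 : (e (F i.1)).natDegree = (F i.1).degreeOf 0 := natDegree_finSuccEquiv _
        exact ⟨h1.trans (hPb i.1 i.2).1, h1.trans (h2.le.trans (hdF i.1 0))⟩
      · intro k f hf
        obtain ⟨g, hg, rfl⟩ := Finset.mem_image.1 hf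
        have h1 : (φ g).natDegree ≤ g.degreeOf 0 := by
          rw [← natDegree_finSuccEquiv]
          exact Polynomial.natDegree_map_le
        exact h1.trans (hdT k g hg 0)
      · intro p hp i
        refine ⟨hint p hp _ (hcF p hp i.1).1, ?_⟩
        obtain ⟨c, hc, hc1⟩ := (htp p hp).2.2 (Sum.inl i)
        obtain ⟨j, rfl⟩ := hmem _ _ hc
        refine ⟨j, ?_⟩
        rw [Polynomial.coeff_map]
        exact hc1
      · intro p hp k
        constructor
        · intro f hf
          obtain ⟨g, hg, rfl⟩ := Finset.mem_image.1 hf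
          exact hint p hp g ((hcT p hp k).1 g hg)
        · obtain ⟨c, hc, hc1⟩ := (htp p hp).2.2 (Sum.inr k)
          obtain ⟨g, hg, j, rfl⟩ := hmem1 _ _ hc
          refine ⟨φ g, Finset.mem_image_of_mem _ hg, j, ?_⟩
          rw [Polynomial.coeff_map]
          exact hc1
      · intro k
        rw [Ideal.eq_top_iff_one]
        have h1 : Polynomial.C (eval t' (ρ k)) ∈
            Ideal.span (((T k).image φ : Finset (Polynomial K)) : Set (Polynomial K)) := by
          have h2 := congrArg (Polynomial.map (eval t')) (hρ k)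
          rw [Polynomial.map_C, Polynomial.map_sum] at h2
          rw [← h2]
          refine Ideal.sum_mem _ fun f hf => ?_
          obtain ⟨g, hg, rfl⟩ := Finset.mem_image.1 hf
          rw [Polynomial.map_mul]
          exact Ideal.mul_mem_left _ _ (Ideal.subset_span (Finset.mem_coe.2
            (Finset.mem_image_of_mem _ hg)))
        have h3 : (1 : Polynomial K) = Polynomial.C (eval t' (ρ k))⁻¹ * Polynomial.C (eval t' (ρ k)) := by
          rw [← Polynomial.C_mul, inv_mul_cancel₀ (htρ k), Polynomial.C_1]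
        rw [h3]
        exact Ideal.mul_mem_left _ _ h1
    have hev : ∀ f, eval (Fin.cons τ t' : Fin (n + 1) → K) f = (φ f).eval τ := fun f =>
      eval_eq_eval_mv_eval' t' τ f
    refine ⟨Fin.cons τ t', ?_, ?_⟩
    · rw [hev]
      intro h0
      apply hτ
      rw [Multiset.mem_toFinset, Polynomial.mem_roots hφH]
      exact h0
    · intro p hp
      obtain ⟨h1, h2, h3⟩ := htp p hp
      obtain ⟨h4, h5, h6⟩ := hτp p hp
      refine ⟨?_, ?_, ?_⟩
      · intro j
        induction j using Fin.cases with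
        | zero => rw [Fin.cons_zero]; exact h4
        | succ j => rw [Fin.cons_succ]; exact h1 j
      · intro i
        rw [hev]
        by_cases h0 : Pa i
        · have h7 : φ (F i) = Polynomial.C (eval t' ((e (F i)).coeff 0)) := by
            change (e (F i)).map (eval t') = _
            conv_lhs => rw [Polynomial.eq_C_of_natDegree_eq_zero h0.1]
            rw [Polynomial.map_C]
          rw [h7, Polynomial.eval_C]
          exact h2 ⟨i, h0⟩
        · exact h5 ⟨i, h0⟩
      · intro k
        obtain ⟨f, hf, hf1⟩ := h6 k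
        obtain ⟨g, hg, rfl⟩ := Finset.mem_image.1 hf
        exact ⟨g, hg, by rw [hev]; exact hf1⟩

end Pool.Agent.Helper83.RelL
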