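import Pool.Agent.Helper83.Rel.Defs2
import Pool.Agent.Helper65.CL.Defs

/-!
# T-REL for several primes: definitions.  `Λ` is a finite set of primes, the bad places are those
with `N p = 1` modulo `l ^ J` for some `l ∈ Λ`.
-/

set_option autoImplicit false

namespace Pool.Agent.Helper83.RelL

open NumberField Pool.Agent.Helper4.CB Pool.Agent.Helper69.CB

variable {K : Type} [Field K] [NumberField K] {R : Type} [CommRing R] [Algebra K R]

/-- at all bad places the coordinates of the point `φ` are integral and one of them is a unit -/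
def NrmL (Λ : Finset ℕ) (J : ℕ) {N : ℕ} (τ : Fin N → R) (φ : R →ₐ[K] K) : Prop :=
  ∀ p : Pl K, Pool.Agent.Helper65.CL.Bad Λ J p →
    (∀ l, vl p (φ (τ l)) ≤ 1) ∧ ∃ l, vl p (φ (τ l)) = 1

/-- at all bad places and all points of `Φ` the elements of `U` are integral and one of them is a
unit -/
def UnitL (Λ : Finset ℕ) (J : ℕ) (Φ : (R →ₐ[K] K) → Prop) (U : Set R) : Prop :=
  ∀ φ, Φ φ → ∀ p : Pl K, Pool.Agent.Helper65.CL.Bad Λ J p →
    (∀ c ∈ U, vl p (φ c) ≤ 1) ∧ ∃ c ∈ U, vl p (φ c) = 1

end Pool.Agent.Helper83.RelL
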