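import Pool.Agent.Helper83.RelL.Harm
import Pool.Agent.Helper83.Rel.Final
import Pool.Agent.Helper65.CL.Claim3
import Pool.Agent.Helper65.CL.AlgU
import Pool.Agent.Helper3.CL.EndL

/-!
# T-REL for several primes: fibre products of norm bundles over `T × A^n`
-/

set_option autoImplicit false

namespace Pool.Agent.Helper83.RelL

open NumberField Pool.Agent.Helper4.CB MvPolynomial Pool.Agent.Helper65.CB
open Pool.Agent.Helper69.CB Pool.Agent.Helper83.Rel Pool.Agent.Helper18.CL
open AlgebraicGeometry CategoryTheory Pool.Agent.Helper15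
open Pool.Agent.Helper3.CL (NormRing)

/-- **T-REL** for norm bundles of prime degrees, abstract form of the base -/
theorem t_rell_abs {K : Type} [Field K] [NumberField K] {R : Type} [CommRing R] [IsDomain R]
    [Algebra K R] {M : ℕ} (τ : Fin M → R) (hgen : Algebra.adjoin K (Set.range τ) = ⊤)
    (hcone : ∀ φ : R →ₐ[K] K, ∃ ψ : R →ₐ[K] Polynomial K, ∀ l,
      ψ (τ l) = Polynomial.X * Polynomial.C (φ (τ l)))
    (hdense : ∀ f : R, f ≠ 0 → ∃ φ : R →ₐ[K] K, φ f ≠ 0) (hτ : ∃ l, τ l ≠ 0)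
    {n r : ℕ} (l : Fin r → ℕ) [∀ i, NeZero (l i)] (hl : ∀ i, (l i).Prime)
    (a b : Fin r → MvPolynomial (Fin n) R)
    (ha : ∀ i, NoZero τ ({a i} : Set (MvPolynomial (Fin n) R)))
    (hb : ∀ i, NoZero τ ({b i} : Set (MvPolynomial (Fin n) R)))
    (hP : ∀ i, ∀ P : MvPolynomial (Fin n) (FractionRing R), Irreducible P →
      P ∣ map (algebraMap R (FractionRing R)) (a i * b i) → TriDeg 3 P) :
    PotentiallyDense K (Spec (CommRingCat.of (NormRing l a b)))
      (Spec.map (CommRingCat.ofHom (algebraMap K (NormRing l a b)))) := by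
  classical
  have hΛ : ∀ q ∈ Finset.univ.image l, q.Prime := by
    intro q hq
    obtain ⟨i, -, rfl⟩ := Finset.mem_image.1 hq
    exact hl i
  obtain ⟨J, hJ2, hJ⟩ := rel_harmlessL (K := K) (Λ := Finset.univ.image l)
    (fun q hq => (hΛ q hq).two_le) (FractionRing R) (dm := 3)
    (Pool.Agent.Helper65.CL.stepD_of_sieve K (fun q hq => (hΛ q hq).two_le)
      (Pool.Agent.Helper65.CL.sieveG_three _ hΛ K))
    τ hgen hcone hdense hτ (Sum.elim a b)
    (by
      rintro (i | i)
      · exact (ha i).ne_zero hτ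
      · exact (hb i).ne_zero hτ)
    (by
      rintro (i | i)
      · exact ha i
      · exact hb i)
    (by
      rintro (i | i) P hPi hd
      · refine hP i P hPi ?_
        rw [map_mul]
        exact dvd_mul_of_dvd_left hd _
      · refine hP i P hPi ?_
        rw [map_mul]
        exact dvd_mul_of_dvd_right hd _) 2
  refine Pool.Agent.Helper3.CL.end_famL K K (MvPolynomial (Fin n) R) l hl a b
    (fun i x y => ∀ p : Pl K, BadL (l i) J p → Pool.Agent.Helper65.CL.LocU (l i) p x y ∧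
      (False ∨ (p.valuation K x = 1 ∧ p.valuation K y = 1)))
    (Pool.Agent.Helper65.CL.alg_fam K l hl J hJ2 (fun _ => False) (fun i h => h.elim))
    (fun f hf => ?_)
  obtain ⟨φ, hφ, h⟩ := hJ f hf
  refine ⟨φ, hφ, fun i => ⟨(h (Sum.inl i)).1, (h (Sum.inr i)).1, fun p hp => ?_⟩⟩
  have h1 := (h (Sum.inl i)).2 p ⟨l i, Finset.mem_image_of_mem l (Finset.mem_univ i), hp⟩
  have h2 := (h (Sum.inr i)).2 p ⟨l i, Finset.mem_image_of_mem l (Finset.mem_univ i), hp⟩
  refine ⟨⟨1, φ (a i), φ (b i), 1, 1, 0, 0, by rw [pow_zero, one_mul],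
      by rw [pow_zero, one_mul], h1, h2, map_one _, ?_⟩, Or.inr ⟨h1, h2⟩⟩
  simp

end Pool.Agent.Helper83.RelL
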