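import Pool.Agent.Helper83.RelL.QL
import Pool.Agent.Helper33.QL.Dom

/-!
# T-REL: fibre products of quadric bundles and norm bundles over `T × A^n`, abstract base
-/

set_option autoImplicit false

namespace Pool.Agent.Helper83.RelL

open NumberField Pool.Agent.Helper4.CB MvPolynomial
open Pool.Agent.Helper65.CB (DominatedOver PotentiallyDense.of_dominated)
open Pool.Agent.Helper69.CB Pool.Agent.Helper83.Rel Pool.Agent.Helper83.RelQ
open Pool.Agent.Helper49.QU Pool.Agent.Helper49.QL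
open AlgebraicGeometry CategoryTheory Pool.Agent.Helper15

/-- **T-REL-QL** -/
theorem t_relql_abs {K : Type} [Field K] [NumberField K] {R : Type} [CommRing R] [IsDomain R]
    [Algebra K R] {M : ℕ} (τ : Fin M → R) (hgen : Algebra.adjoin K (Set.range τ) = ⊤)
    (hcone : ∀ φ : R →ₐ[K] K, ∃ ψ : R →ₐ[K] Polynomial K, ∀ l,
      ψ (τ l) = Polynomial.X * Polynomial.C (φ (τ l)))
    (hdense : ∀ f : R, f ≠ 0 → ∃ φ : R →ₐ[K] K, φ f ≠ 0) (hτ : ∃ l, τ l ≠ 0)
    {n r s : ℕ} {N : Fin r → ℕ}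
    (B : ∀ i : Fin r, Matrix (Fin (N i)) (Fin (N i)) (MvPolynomial (Fin n) R))
    (hB : ∀ i, (B i).IsSymm)
    (hr : ∀ i, ∀ ψ : R →ₐ[K] AlgebraicClosure K,
      (∀ f g : Fin 3 → Fin (N i),
        (((B i).map (MvPolynomial.map (ψ : R →+* AlgebraicClosure K))).submatrix f g).det = 0) →
      ∀ l, ψ (τ l) = 0)
    (l : Fin s → ℕ) [∀ j, NeZero (l j)] (hl : ∀ j, (l j).Prime)
    (a b : Fin s → MvPolynomial (Fin n) R)
    (ha : ∀ j, GeomNoZero K τ (a j)) (hb : ∀ j, GeomNoZero K τ (b j))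
    (h : ∀ i, ∀ P : MvPolynomial (Fin n) (FractionRing R), Irreducible P →
      Minors ((B i).map (MvPolynomial.map (algebraMap R (FractionRing R)))) P → TriDeg 3 P)
    (hab : ∀ j, ∀ P : MvPolynomial (Fin n) (FractionRing R), Irreducible P →
      P ∣ map (algebraMap R (FractionRing R)) (a j * b j) → TriDeg 3 P) :
    ∃ δ : MvPolynomial (Fin n) R, δ ≠ 0 ∧ ∀ (X : Scheme.{0}) (s : X ⟶ Spec (CommRingCat.of K)),
      DominatedOver K X (Spec (CommRingCat.of (QLRing B l a b δ))) s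
        (Spec.map (CommRingCat.ofHom (algebraMap K (QLRing B l a b δ)))) →
      PotentiallyDense K X s :=
  t_relql_of τ hgen hcone hdense hτ B hB hr l hl a b ha hb h hab
    (fun v δ hδ h0 => Pool.Agent.Helper33.QL.dominatedQLR B hB l a b v δ hδ h0)

end Pool.Agent.Helper83.RelL
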